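import Pool.Agent.H72.TG.Main

/-!
# Telgarsky's conjecture for all k from hypothesis (H)

Hypothesis (H) is the structure `HypH` (see `Pool/Agent/H72/TG/Hyp.lean`): a sequence of sets
`B 0, B 1, …` with cofinal families `D i` of small subsets of `B (i+1)`, countably saturated filters
on the `D i`, and a total extension of the coin tossing measure. It holds after adding random reals to
a model with strongly compact cardinals `λ_1 < λ_2 < …` and a measurable cardinal above them.

The conclusion is, word for word, the statement of the problem, with the additional information that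
the spaces are Hausdorff.
-/

set_option autoImplicit false

namespace Pool.Agent.Results.MP_6437d7_gt.AllKFromFilters

open Pool.Agent.H72.TG

theorem result (H : HypH) :
    ∀ k : ℕ, 1 ≤ k → ∃ (X : Type) (_ : TopologicalSpace X), T2Space X ∧
      (∃ σ : List (Set X) → Set X,
        (∀ (U : ℕ → Set X) (n : ℕ),
          IsOpen (U 0) → (U 0).Nonempty →
          (∀ m < n, IsOpen (U (m + 1)) ∧ (U (m + 1)).Nonempty ∧
            U (m + 1) ⊆ σ ((List.range (min (m + 1) (k + 1))).map
              (fun i => U (m + 1 - min (m + 1) (k + 1) + i)))) →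
          (IsOpen (σ ((List.range (min (n + 1) (k + 1))).map
              (fun i => U (n + 1 - min (n + 1) (k + 1) + i)))) ∧
           (σ ((List.range (min (n + 1) (k + 1))).map
              (fun i => U (n + 1 - min (n + 1) (k + 1) + i)))).Nonempty ∧
           σ ((List.range (min (n + 1) (k + 1))).map
              (fun i => U (n + 1 - min (n + 1) (k + 1) + i))) ⊆ U n)) ∧
        (∀ U : ℕ → Set X,
          IsOpen (U 0) → (U 0).Nonempty →
          (∀ m : ℕ, IsOpen (U (m + 1)) ∧ (U (m + 1)).Nonempty ∧
            U (m + 1) ⊆ σ ((List.range (min (m + 1) (k + 1))).map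
              (fun i => U (m + 1 - min (m + 1) (k + 1) + i)))) →
          (⋂ n : ℕ, σ ((List.range (min (n + 1) (k + 1))).map
              (fun i => U (n + 1 - min (n + 1) (k + 1) + i)))).Nonempty)) ∧
      ¬ (∃ σ : List (Set X) → Set X,
        (∀ (U : ℕ → Set X) (n : ℕ),
          IsOpen (U 0) → (U 0).Nonempty →
          (∀ m < n, IsOpen (U (m + 1)) ∧ (U (m + 1)).Nonempty ∧
            U (m + 1) ⊆ σ ((List.range (min (m + 1) k)).map
              (fun i => U (m + 1 - min (m + 1) k + i)))) →
          (IsOpen (σ ((List.range (min (n + 1) k)).map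
              (fun i => U (n + 1 - min (n + 1) k + i)))) ∧
           (σ ((List.range (min (n + 1) k)).map
              (fun i => U (n + 1 - min (n + 1) k + i)))).Nonempty ∧
           σ ((List.range (min (n + 1) k)).map
              (fun i => U (n + 1 - min (n + 1) k + i))) ⊆ U n)) ∧
        (∀ U : ℕ → Set X,
          IsOpen (U 0) → (U 0).Nonempty →
          (∀ m : ℕ, IsOpen (U (m + 1)) ∧ (U (m + 1)).Nonempty ∧
            U (m + 1) ⊆ σ ((List.range (min (m + 1) k)).map
              (fun i => U (m + 1 - min (m + 1) k + i)))) →
          (⋂ n : ℕ, σ ((List.range (min (n + 1) k)).map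
              (fun i => U (n + 1 - min (n + 1) k + i)))).Nonempty)) := by
  intro k hk
  obtain ⟨X, tX, h2, h3, h4⟩ := H.main k hk
  exact ⟨X, tX, h2, h3, h4⟩

end Pool.Agent.Results.MP_6437d7_gt.AllKFromFilters
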