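import Pool.Agent.H23.BM.Final

/-!
# A criterion for winning (n+1)-tactics in the Banach-Mazur game

Let `κ` be an infinite cardinal, `κ^{+i}` its `i`-th successor and `n ≥ 1`. Let `X` be a space which
has a π-base of size at most `κ^{+n}`, or a π-base in which every member has at most `κ^{+(n-1)}`
supersets. Assume that every nonempty open set `U`, all of whose nonempty open subsets contain
infinite cellular families, contains a cellular family of size `κ` and, for `1 ≤ i < n`, has a family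
of `κ^{+i}` nonempty open subsets such that no nonempty open set is contained in `κ^{+i}` of them. If
II has a winning strategy in the Banach-Mazur game on `X`, then II has a winning `(n+1)`-tactic.
-/

set_option autoImplicit false

namespace Pool.Agent.Results.MP_6437d7_gt.KTactics

open Cardinal Pool.Agent.H23.BM

theorem result (X : Type) [TopologicalSpace X] (κ : Cardinal.{0}) (hκ : ℵ₀ ≤ κ) (n : ℕ)
    (hn : 1 ≤ n) (𝓑 : Set (Set X)) (hopen : ∀ B ∈ 𝓑, IsOpen B ∧ B.Nonempty)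
    (hbase : ∀ U : Set X, IsOpen U → U.Nonempty → ∃ B ∈ 𝓑, B ⊆ U)
    (hsize : #𝓑 ≤ (Order.succ^[n]) κ ∨ ∀ B ∈ 𝓑, #{V | V ∈ 𝓑 ∧ B ⊆ V} ≤ (Order.succ^[n - 1]) κ)
    (hfam : ∀ U : Set X, IsOpen U → U.Nonempty →
      (∀ V, IsOpen V → V.Nonempty → V ⊆ U → ∃ F : Set (Set X), F.Infinite ∧
        (∀ W ∈ F, IsOpen W ∧ W.Nonempty ∧ W ⊆ V) ∧ F.PairwiseDisjoint id) →
      (∃ F : Set (Set X), κ ≤ #F ∧ (∀ W ∈ F, IsOpen W ∧ W.Nonempty ∧ W ⊆ U) ∧
        F.PairwiseDisjoint id) ∧
      ∀ i, 1 ≤ i → i < n → ∃ (I : Type) (G : I → Set X), #I = (Order.succ^[i]) κ ∧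
        (∀ ξ, IsOpen (G ξ) ∧ (G ξ).Nonempty ∧ G ξ ⊆ U) ∧
        ∀ W : Set X, IsOpen W → W.Nonempty → #{ξ | W ⊆ G ξ} < (Order.succ^[i]) κ)
    (hW : WinningStrategy X) : WinningTactic X (n + 1) :=
  final κ hκ n hn 𝓑 hopen hbase hsize hfam hW

end Pool.Agent.Results.MP_6437d7_gt.KTactics
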