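import Pool.Agent.H83.T.Main

/-!
# A winning strategy without winning `k`-tactics (MP_6437d7_gt)

There is a model of ZFC (with standard natural numbers) that contains a Hausdorff space on which
player II has a winning strategy in the Banach-Mazur game but, for no `k`, a winning `k`-tactic.
-/

set_option autoImplicit false

namespace Pool.Agent.Results.MP_6437d7_gt.StrategyWithoutTactics

open Pool.Agent.H83.F Pool.Agent.H83.T

/-- There are a model `(M, E)` of ZFC whose set `w` of natural numbers consists of the standard
numbers, and a Hausdorff space `(X, T)` in it, such that in the model player II has a winning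
strategy in the Banach-Mazur game on `(X, T)` but no winning `k`-tactic for any `k ≥ 1`. -/
theorem result : ∃ (M : Type) (E : M → M → Prop), IsZFCModel E ∧ ∃ w, IsOmega E w ∧
    (∀ x, E x w ↔ ∃ n, IsNum E n x) ∧ ∃ X T, IsTop E X T ∧ IsHaus E X T ∧
      WinStrategy E w T ∧ ∀ k, 1 ≤ k → ¬ WinTactic E w T k :=
  main

end Pool.Agent.Results.MP_6437d7_gt.StrategyWithoutTactics
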